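import Pool.Agent.Lib.HYP.N.Lin
import Pool.Agent.Lib.HYP.F.UnrC
import Pool.Agent.Lib.HYP.F.Res
import Pool.Agent.Lib.HYP.F.FinNorm
import Pool.Agent.Lib.HYP.L.Det
import Pool.Agent.Lib.HYP.L.Tau
import Pool.Agent.Lib.HYP.L.Norm

/-!
Module N.Claim (section 11). The decomposition `F[x] / ((x - ξ) h) = F × F[x] / (h)`, the functional
`τ` and the norm in it, and: if the form of the element `(a b ^ 2, D (ξ - θ₂) ε y ^ 2)`, `a`, `ε`
units, `D` a uniformizer, is split then `ε` is a square.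
-/

set_option autoImplicit false

open Polynomial Matrix

namespace Pool.Agent.HYP.N

open Pool.Agent.BSDP

section dec

variable {F : Type} [Field F] {f hF : F[X]} {ξ : F}

/-- The second component. -/
noncomputable def r2 (hfac : f = (X - C ξ) * hF) : AdjoinRoot f →+* AdjoinRoot hF :=
  AdjoinRoot.lift (AdjoinRoot.of hF) (AdjoinRoot.root hF) (by
    rw [hfac, eval₂_mul, AdjoinRoot.eval₂_root, mul_zero])

theorem r2_mk (hfac : f = (X - C ξ) * hF) (P : F[X]) :
    r2 hfac (AdjoinRoot.mk f P) = AdjoinRoot.mk hF P := by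
  unfold r2
  rw [AdjoinRoot.lift_mk]
  exact AdjoinRoot.aeval_eq P

theorem ev_mk (hξ : f.eval ξ = 0) (P : F[X]) : ev ξ hξ (AdjoinRoot.mk f P) = P.eval ξ := by
  unfold ev
  rw [AdjoinRoot.lift_mk, eval₂_id]

theorem r2_smul (hfac : f = (X - C ξ) * hF) (a : F) (x : AdjoinRoot f) :
    r2 hfac (a • x) = a • r2 hfac x := by
  obtain ⟨P, rfl⟩ := AdjoinRoot.mk_surjective x
  rw [AdjoinRoot.smul_mk, r2_mk, r2_mk, AdjoinRoot.smul_mk]

theorem ev_smul (hξ : f.eval ξ = 0) (a : F) (x : AdjoinRoot f) :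
    ev ξ hξ (a • x) = a * ev ξ hξ x := by
  obtain ⟨P, rfl⟩ := AdjoinRoot.mk_surjective x
  rw [AdjoinRoot.smul_mk, ev_mk, ev_mk, eval_smul, smul_eq_mul]

/-- Injectivity of the decomposition. -/
theorem dec_inj (hfac : f = (X - C ξ) * hF) (hη : hF.eval ξ ≠ 0) (hξ : f.eval ξ = 0)
    {x : AdjoinRoot f} (h1 : ev ξ hξ x = 0) (h2 : r2 hfac x = 0) : x = 0 := by
  obtain ⟨P, rfl⟩ := AdjoinRoot.mk_surjective x
  rw [ev_mk] at h1
  rw [r2_mk, AdjoinRoot.mk_eq_zero] at h2
  rw [AdjoinRoot.mk_eq_zero, hfac]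
  refine IsCoprime.mul_dvd ?_ (dvd_iff_isRoot.mpr h1) h2
  exact (irreducible_X_sub_C ξ).coprime_iff_not_dvd.mpr (fun h => hη (dvd_iff_isRoot.mp h))

/-- Surjectivity of the decomposition. -/
theorem dec_surj (hfac : f = (X - C ξ) * hF) (hη : hF.eval ξ ≠ 0) (hξ : f.eval ξ = 0)
    (s : F) (t : AdjoinRoot hF) : ∃ x : AdjoinRoot f, ev ξ hξ x = s ∧ r2 hfac x = t := by
  obtain ⟨Q, rfl⟩ := AdjoinRoot.mk_surjective t
  refine ⟨AdjoinRoot.mk f (Q + C ((s - Q.eval ξ) / hF.eval ξ) * hF), ?_, ?_⟩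
  · rw [ev_mk, eval_add, eval_mul, eval_C, div_mul_cancel₀ _ hη, add_sub_cancel]
  · rw [r2_mk, map_add, map_mul, AdjoinRoot.mk_self, mul_zero, add_zero]

/-- The functional `τ`. -/
theorem tau_dec (hf : f.Monic) (hh : hF.Monic) (hfac : f = (X - C ξ) * hF) (hη : hF.eval ξ ≠ 0)
    (hξ : f.eval ξ = 0) (hd : 1 ≤ hF.natDegree) (w : AdjoinRoot f) (u : AdjoinRoot hF)
    (h : r2 hfac w = (AdjoinRoot.root hF - algebraMap F _ ξ) * u) :
    tau hf w = ev ξ hξ w / hF.eval ξ + tau hh u := by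
  have hdf : f.natDegree = hF.natDegree + 1 := by
    rw [hfac, (monic_X_sub_C ξ).natDegree_mul hh, natDegree_X_sub_C, add_comm]
  obtain ⟨P, hP, rfl⟩ := exists_repr hf (by omega) w
  obtain ⟨U, hU, rfl⟩ := exists_repr hh hd u
  rw [ev_mk, tau_mk_lt hf P hP, tau_mk_lt hh U hU]
  rw [r2_mk] at h
  have h1 : hF ∣ P - (X - C ξ) * U := by
    rw [← AdjoinRoot.mk_eq_mk, h, map_mul, map_sub, AdjoinRoot.mk_X, AdjoinRoot.mk_C]
    rfl
  obtain ⟨s, hs⟩ := h1
  have hsd : s.natDegree = 0 := by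
    by_contra hne
    have hs0 : s ≠ 0 := fun h0 => hne (by rw [h0, natDegree_zero])
    have h2 : (hF * s).natDegree = hF.natDegree + s.natDegree := hh.natDegree_mul' hs0
    have h3 : (P - (X - C ξ) * U).natDegree ≤ hF.natDegree := by
      refine (natDegree_sub_le _ _).trans (max_le (by omega) ?_)
      refine (natDegree_mul_le).trans ?_
      rw [natDegree_X_sub_C]
      omega
    rw [hs, h2] at h3
    omega
  obtain ⟨s0, rfl⟩ := natDegree_eq_zero.mp hsd
  have hP1 : P = (X - C ξ) * U + C s0 * hF := by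
    linear_combination hs
  have h4 : P.eval ξ = s0 * hF.eval ξ := by
    rw [hP1, eval_add, eval_mul, eval_sub, eval_X, eval_C, sub_self, zero_mul, zero_add, eval_mul,
      eval_C]
  have h5 : P.coeff hF.natDegree = U.coeff (hF.natDegree - 1) + s0 := by
    obtain ⟨m, hm⟩ : ∃ m, hF.natDegree = m + 1 := ⟨hF.natDegree - 1, by omega⟩
    have h6 : hF.coeff hF.natDegree = 1 := hh.coeff_natDegree
    rw [hP1, coeff_add, coeff_C_mul, h6, mul_one, sub_mul, coeff_sub, coeff_C_mul,
      coeff_eq_zero_of_natDegree_lt hU, mul_zero, sub_zero, hm, coeff_X_mul, Nat.add_sub_cancel]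
  have h7 : f.natDegree - 1 = hF.natDegree := by omega
  rw [h7, h5, h4, mul_div_cancel_right₀ _ hη]
  ring

/-- The norm. -/
theorem norm_dec (hf : f.Monic) (hh : hF.Monic) (hfac : f = (X - C ξ) * hF)
    (hξ : f.eval ξ = 0) (x : AdjoinRoot f) :
    Algebra.norm F x = ev ξ hξ x * Algebra.norm F (r2 hfac x) := by
  obtain ⟨P, rfl⟩ := AdjoinRoot.mk_surjective x
  rw [r2_mk, ev_mk, norm_mk hf, norm_mk hh]
  have hdf : f.natDegree = 1 + hF.natDegree := by
    rw [hfac, (monic_X_sub_C ξ).natDegree_mul hh, natDegree_X_sub_C]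
  have h1 := resultant_mul_left (X - C ξ) hF P P.natDegree le_rfl
  rw [natDegree_X_sub_C, resultant_X_sub_C_left _ _ _ le_rfl, ← hfac, ← hdf] at h1
  exact h1

end dec

/-- `h (ξ)` is a unit. -/
theorem eval_unit {F : Type} [Field F] (L : Loc F) {g : ℕ} {f : F[X]} {ξ : L.O} {h : L.O[X]}
    (H : RootAt L g f ξ h) : IsUnit (h.eval ξ) := by
  rw [← IsLocalRing.residue_ne_zero_iff_isUnit]
  intro h0
  have h1 : (h.map (IsLocalRing.residue L.O)).IsRoot (IsLocalRing.residue L.O ξ) := by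
    rw [IsRoot.def, eval_map, eval₂_at_apply, h0]
  have h2 := degree_eq_one_of_irreducible_of_root H.irr h1
  rw [degree_eq_natDegree H.irr.ne_zero, H.monic.natDegree_map, H.deg] at h2
  have h3 : 2 * g = 1 := by exact_mod_cast h2
  omega

/-- The coordinates of an element of the algebra of the second component. -/
private theorem coord_one {S : Type} [CommRing S] {h : S[X]} (hh : h.Monic) {n : ℕ}
    (hn : h.natDegree = n) (hn1 : 1 ≤ n) (m : AdjoinRoot h) :
    m = ∑ j : Fin n, (AdjoinRoot.modByMonicHom hh m).coeff j • std h n j :=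
  congrFun (eq_coord hh hn (fun _ : Fin n => m)) ⟨0, hn1⟩

/-- The coordinates. -/
private noncomputable def Phi {F : Type} [Field F] {f hF : F[X]} {ξ : F} (g : ℕ)
    (hh : hF.Monic) (hfac : f = (X - C ξ) * hF) (hξ : f.eval ξ = 0) (b : F)
    (y : AdjoinRoot hF) : AdjoinRoot f →ₗ[F] (Fin (2 * g + 1) → F) where
  toFun l := Fin.cons (b * ev ξ hξ l) fun j : Fin (2 * g) =>
    (AdjoinRoot.modByMonicHom hh (y * r2 hfac l)).coeff j
  map_add' l l' := by
    funext k
    refine Fin.cases ?_ (fun k => ?_) k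
    · simp only [Fin.cons_zero, Pi.add_apply, map_add, mul_add]
    · simp only [Fin.cons_succ, Pi.add_apply, map_add, mul_add, coeff_add]
  map_smul' a l := by
    funext k
    refine Fin.cases ?_ (fun k => ?_) k
    · simp only [Fin.cons_zero, Pi.smul_apply, ev_smul, RingHom.id_apply, smul_eq_mul]
      ring
    · simp only [Fin.cons_succ, Pi.smul_apply, r2_smul, RingHom.id_apply, mul_smul_comm, map_smul,
        coeff_smul]

/-- The claim of section 11. -/
theorem claim {F : Type} [Field F] (L : Loc F) (hC : Complete L) {g : ℕ} (hg : 1 ≤ g)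
    {f : F[X]} (hf : f.Monic) {ξ : L.O} {h : L.O[X]} (H : RootAt L g f ξ h)
    (hfac : f = (X - C (ξ : F)) * h.map (algebraMap L.O F)) {D : F}
    (hD : L.O.valuation D = L.O.valuation L.pi) {x : AdjoinRoot f} (hs : Split hf g x)
    {a b : F} (ha : L.O.valuation a = 1) (hb : b ≠ 0) (h1 : ev (ξ : F) H.root x = a * b ^ 2)
    {ε : AdjoinRoot h} (hε : IsUnit ε) {y : AdjoinRoot (h.map (algebraMap L.O F))}
    (hy : IsUnit y) (h2 : r2 hfac x = D • ((algebraMap F _ (ξ : F) - AdjoinRoot.root _) *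
      bc (algebraMap L.O F) h ε * y ^ 2)) : IsSquare (bc (algebraMap L.O F) h ε) := by
  have : Finite (IsLocalRing.ResidueField L.O) := L.fin
  have hh := H.monic
  have hhF : (h.map (algebraMap L.O F)).Monic := hh.map _
  have hdF : (h.map (algebraMap L.O F)).natDegree = 2 * g := by
    rw [hh.natDegree_map, H.deg]
  have hηe : (h.map (algebraMap L.O F)).eval (ξ : F) = algebraMap L.O F (h.eval ξ) := by
    rw [eval_map]
    exact eval₂_at_apply (algebraMap L.O F) ξ
  have hη : L.O.valuation ((h.map (algebraMap L.O F)).eval (ξ : F)) = 1 := by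
    rw [hηe]
    exact (ValuationSubring.valuation_eq_one_iff L.O (h.eval ξ)).mp (eval_unit L H)
  have hη0 : (h.map (algebraMap L.O F)).eval (ξ : F) ≠ 0 := by
    intro h0
    rw [h0, map_zero] at hη
    exact zero_ne_one hη
  obtain ⟨W, hW, hWi⟩ := hs
  let Φ := Phi g hhF hfac H.root b y
  have hΦ : Function.Injective Φ := by
    rw [injective_iff_map_eq_zero]
    intro l hl
    have h3 : b * ev (ξ : F) H.root l = 0 := congrFun hl 0
    have h4 : ∀ j : Fin (2 * g), (AdjoinRoot.modByMonicHom hhF (y * r2 hfac l)).coeff j = 0 :=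
      fun j => congrFun hl j.succ
    have h5 := coord_one hhF hdF (by omega) (y * r2 hfac l)
    rw [Finset.sum_eq_zero (fun j _ => by rw [h4 j, zero_smul])] at h5
    exact dec_inj hfac hη0 H.root ((mul_eq_zero.mp h3).resolve_left hb)
      ((hy.mul_right_eq_zero).mp h5)
  have hG := gram1_symm hh ε (std h (2 * g))
  have key := isSquare_res L (gram1 hh ε (std h (2 * g))) hG
    (a := a / (h.map (algebraMap L.O F)).eval (ξ : F)) (D := D)
    (by rw [map_div₀, ha, hη, div_one]) hD (W.map Φ) ?_ ?_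
  · rw [← RingHom.mapMatrix_apply, ← RingHom.map_det, gram1_det_even hh H.deg, coord_std hh H.deg,
      det_one, one_pow, mul_one, map_mul, map_pow, map_neg, map_one, ← mul_assoc, ← mul_pow,
      neg_one_mul, neg_neg, one_pow, one_mul, ← norm_bc hh] at key
    rw [(unit_isSquare_iff L hC hh H.irr ε hε).2]
    refine (isSquare_iff_norm_fin ?_ (hh.map _) H.irr _).mpr key
    have h3 : IsUnit (2 : L.O) := isUnit_two L
    have h4 := h3.map (IsLocalRing.residue L.O)
    rw [map_ofNat] at h4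
    exact h4.ne_zero
  · exact (LinearEquiv.finrank_eq (Submodule.equivMapOfInjective Φ hΦ W)).symm.trans hW
  · rintro _ ⟨l, hl, rfl⟩ _ ⟨l', hl', rfl⟩
    have h3 := hWi l hl l' hl'
    have h4 := tau_dec hf hhF hfac hη0 H.root (by omega) (x * l * l')
      (-(D • (bc (algebraMap L.O F) h ε * (y * r2 hfac l) * (y * r2 hfac l')))) (by
        rw [map_mul, map_mul, h2]
        simp only [Algebra.smul_def]
        ring)
    rw [h3, map_mul, map_mul, h1, map_neg, map_smul, smul_eq_mul] at h4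
    have h5 := gram1_form hhF (bc (algebraMap L.O F) h ε)
      (std (h.map (algebraMap L.O F)) (2 * g))
      (fun j : Fin (2 * g) => (AdjoinRoot.modByMonicHom hhF (y * r2 hfac l)).coeff j)
      (fun j : Fin (2 * g) => (AdjoinRoot.modByMonicHom hhF (y * r2 hfac l')).coeff j)
    rw [← coord_one hhF hdF (by omega), ← coord_one hhF hdF (by omega)] at h5
    have h6 : std (h.map (algebraMap L.O F)) (2 * g) =
        fun i => bc (algebraMap L.O F) h (std h (2 * g) i) := by
      funext i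
      unfold std
      rw [map_pow, bc_root]
    rw [h6, gram1_bc hh] at h5
    rw [h5] at h4
    have h7 : Fin.tail (Φ l) =
      (fun j : Fin (2 * g) => (AdjoinRoot.modByMonicHom hhF (y * r2 hfac l)).coeff j) := rfl
    have h8 : Fin.tail (Φ l') =
      (fun j : Fin (2 * g) => (AdjoinRoot.modByMonicHom hhF (y * r2 hfac l')).coeff j) := rfl
    rw [h7, h8]
    have h9 : Φ l 0 = b * ev (ξ : F) H.root l := rfl
    have h10 : Φ l' 0 = b * ev (ξ : F) H.root l' := rfl
    rw [h9, h10]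
    linear_combination -h4

end Pool.Agent.HYP.N
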