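import Pool.Agent.Lib.HYP.F.UnrC
import Pool.Agent.Lib.HYP.F.Img
import Pool.Agent.Lib.HYP.G.Tw
import Pool.Agent.Lib.HYP.L.Split12
import Pool.Agent.Lib.HYP.N.Claim

/-!
Module N.Main of MP_950c68_ag (genus g), section 11 of the paper: at a prime `π` dividing `D` the
product of a local image of the twist which is not a square with a class with nonsquare components
is not split.
-/

set_option autoImplicit false

open Polynomial

namespace Pool.Agent.HYP

open Pool.Agent.BSDP

private theorem nm_dn_mk {F : Type} [Field F] {f f' : F[X]} {D : F} (h : f' = f.scaleRoots D)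
    (P : F[X]) : dn D h (AdjoinRoot.mk f' P) = AdjoinRoot.mk f (P.comp (C D * X)) := by
  unfold dn
  rw [AdjoinRoot.liftAlgHom_mk, Polynomial.comp, Polynomial.hom_eval₂, map_mul, AdjoinRoot.mk_X,
    AdjoinRoot.mk_C, Algebra.smul_def]
  rfl

/-- An element with square components is a square. -/
private theorem nm_square {F : Type} [Field F] {f hF : F[X]} {ξ : F}
    (hfac : f = (X - C ξ) * hF) (hη : hF.eval ξ ≠ 0) (hξ : f.eval ξ = 0) {c : AdjoinRoot f}
    (h1 : IsSquare (ev ξ hξ c)) (h2 : IsSquare (N.r2 hfac c)) : IsSquare c := by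
  obtain ⟨s, hs⟩ := h1
  obtain ⟨t, ht⟩ := h2
  obtain ⟨l, hl1, hl2⟩ := N.dec_surj hfac hη hξ s t
  refine ⟨l, sub_eq_zero.mp (N.dec_inj hfac hη hξ ?_ ?_)⟩
  · rw [map_sub, map_mul, hl1, hs, sub_self]
  · rw [map_sub, map_mul, hl2, ht, sub_self]

private theorem nm_smul {F : Type} [Field F] {h : F[X]} (hm : h.Monic) (a : F)
    (x : AdjoinRoot h) : Algebra.norm F (a • x) = a ^ h.natDegree * Algebra.norm F x := by
  rw [Algebra.smul_def, map_mul, norm_const hm]

/-- The element of the second split criterion on the twist. -/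
private theorem nm_twist {F : Type} [Field F] {f f' hF : F[X]} {ξ D : F}
    (h' : f' = f.scaleRoots D) :
    dn D h' (AdjoinRoot.mk f' (hF.scaleRoots D) -
        (AdjoinRoot.root f' - algebraMap F _ (ξ * D))) =
      AdjoinRoot.mk f (C (D ^ hF.natDegree) * hF - (C D * X - C (ξ * D))) := by
  have h1 : AdjoinRoot.mk f' (hF.scaleRoots D) - (AdjoinRoot.root f' - algebraMap F _ (ξ * D)) =
      AdjoinRoot.mk f' (hF.scaleRoots D - (X - C (ξ * D))) := by
    rw [map_sub, map_sub, AdjoinRoot.mk_X, AdjoinRoot.mk_C]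
    rfl
  rw [h1, nm_dn_mk, sub_comp, sub_comp, X_comp, C_comp]
  have h2 : (hF.scaleRoots D).comp (C D * X) = C (D ^ hF.natDegree) * hF := by
    have h3 := Polynomial.scaleRoots_eval₂_mul (p := hF) (C : F →+* F[X]) X D
    rw [Polynomial.comp, h3, eval₂_C_X, C_pow]
  rw [h2]

theorem not_split_at {F : Type} [Field F] (L : Loc F) (hC : Complete L) {g : ℕ} (hg : 1 ≤ g)
    {f f' : F[X]} (hf : f.Monic) {ξ : L.O} {h : L.O[X]} (H : RootAt L g f ξ h) {D : F}
    (hD : L.O.valuation D = L.O.valuation L.pi) (hf' : f' = f.scaleRoots D)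
    (c' : AdjoinRoot f') (hi : Image f' g c') (hn : SqNorm c') (hs : ¬ IsSquare c')
    (e : AdjoinRoot f) (he : EtaAt L H e) : ¬ Split hf g (dn D hf' c' * e) := by
  have hfac : f = (X - C (ξ : F)) * h.map (algebraMap L.O F) := by
    rw [H.fac, Polynomial.map_mul, Polynomial.map_sub, map_X, map_C]
    rfl
  have hh := H.monic
  have hhF : (h.map (algebraMap L.O F)).Monic := hh.map _
  have hdF : (h.map (algebraMap L.O F)).natDegree = 2 * g := by
    rw [hh.natDegree_map, H.deg]
  have hηe : (h.map (algebraMap L.O F)).eval (ξ : F) = algebraMap L.O F (h.eval ξ) := by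
    rw [eval_map]
    exact eval₂_at_apply (algebraMap L.O F) ξ
  have hη : L.O.valuation ((h.map (algebraMap L.O F)).eval (ξ : F)) = 1 := by
    rw [hηe]
    exact (ValuationSubring.valuation_eq_one_iff L.O (h.eval ξ)).mp (N.eval_unit L H)
  have hval0 : ∀ {x : F}, L.O.valuation x = 1 → x ≠ 0 := by
    intro x hx h0
    rw [h0, map_zero] at hx
    exact zero_ne_one hx
  have hη0 := hval0 hη
  have hpiv : L.O.valuation L.pi ≠ 0 := (Valuation.ne_zero_iff _).mpr L.pi_ne
  have hD0 : D ≠ 0 := by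
    intro h0
    rw [h0, map_zero] at hD
    exact hpiv hD.symm
  have hf'm : f'.Monic := by
    rw [hf']
    exact (monic_scaleRoots_iff D).mpr hf
  have hdf' : f'.natDegree = 2 * g + 1 := by
    rw [hf', natDegree_scaleRoots, hfac, (monic_X_sub_C _).natDegree_mul hhF, natDegree_X_sub_C,
      hdF, add_comm]
  -- the element `c`
  have hcN : SqNorm (dn D hf' c') := (sqNorm_dn hf hD0 hf' c').mpr hn
  have hcS : ¬ IsSquare (dn D hf' c') := fun h => hs ((isSquare_dn hD0 hf' c').mp h)
  obtain ⟨n, hn0, hnN⟩ := hcN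
  generalize hcc : dn D hf' c' = c at hcS hnN ⊢
  rw [N.norm_dec hf hhF hfac H.root] at hnN
  have hr0 : N.r2 hfac c ≠ 0 := by
    intro h0
    have h3 := nm_smul hhF 0 (1 : AdjoinRoot (h.map (algebraMap L.O F)))
    rw [zero_smul, zero_pow (by omega), zero_mul] at h3
    rw [h0, h3, mul_zero] at hnN
    exact pow_ne_zero 2 hn0 hnN.symm
  have hval : ∀ x : AdjoinRoot h, IsUnit x →
      L.O.valuation (Algebra.norm F (bc (algebraMap L.O F) h x)) = 1 := by
    intro x hx
    rw [norm_bc hh]
    exact (ValuationSubring.valuation_eq_one_iff L.O _).mp ((isUnit_iff_norm hh x).mp hx)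
  obtain ⟨e₂, y, he₂, hy, hcase⟩ := exists_unit_class L hh H.irr _ hr0
  have hNy : Algebra.norm F y ≠ 0 := ((isUnit_iff_norm hhF y).mp hy).ne_zero
  have hNe := hval e₂ he₂
  have hNe0 := hval0 hNe
  rcases hcase with hcase | hcase
  · -- the second component is a unit up to squares
    have hev : ev (ξ : F) H.root c = Algebra.norm F (bc (algebraMap L.O F) h e₂) *
        (n / (Algebra.norm F (bc (algebraMap L.O F) h e₂) * Algebra.norm F y)) ^ 2 := by
      rw [hcase, map_mul, map_pow] at hnN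
      field_simp
      linear_combination hnN
    by_cases hsq : IsSquare (bc (algebraMap L.O F) h e₂)
    · exfalso
      apply hcS
      obtain ⟨s, hs'⟩ := hsq
      refine nm_square hfac hη0 H.root ?_ ?_
      · rw [hev, hs', map_mul]
        exact ⟨Algebra.norm F s * (n / (Algebra.norm F s * Algebra.norm F s *
          Algebra.norm F y)), by ring⟩
      · rw [hcase, hs']
        exact ⟨s * y, by ring⟩
    · exfalso
      have hfac' : f' = (X - C ((ξ : F) * D)) * (h.map (algebraMap L.O F)).scaleRoots D := by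
        rw [hf', hfac, mul_scaleRoots_of_noZeroDivisors, X_sub_C_scaleRoots]
      have hξ' : ((h.map (algebraMap L.O F)).scaleRoots D).eval ((ξ : F) * D) ≠ 0 := by
        rw [mul_comm, scaleRoots_eval_mul]
        exact mul_ne_zero (pow_ne_zero _ hD0) hη0
      have h3 := split_of_image_mul hf'm hdf' hfac' hξ' hi
      rw [← split_dn hf hf'm hD0 hf', map_mul, nm_twist hf', hcc] at h3
      refine hsq (N.claim L hC hg hf H hfac hD h3 (a := Algebra.norm F
        (bc (algebraMap L.O F) h e₂) * (h.map (algebraMap L.O F)).eval (ξ : F))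
        (b := (n / (Algebra.norm F (bc (algebraMap L.O F) h e₂) * Algebra.norm F y)) * D ^ g)
        ?_ ?_ ?_ he₂ hy ?_)
      · rw [map_mul, hNe, hη, one_mul]
      · exact mul_ne_zero (div_ne_zero hn0 (mul_ne_zero hNe0 hNy)) (pow_ne_zero _ hD0)
      · rw [map_mul, hev, N.ev_mk, eval_sub, eval_sub, eval_mul, eval_mul, eval_C, eval_C, eval_C,
          eval_X, hdF]
        ring
      · rw [map_mul, hcase, N.r2_mk, map_sub, map_mul, AdjoinRoot.mk_self, mul_zero, map_sub,
          map_mul, AdjoinRoot.mk_X, AdjoinRoot.mk_C, AdjoinRoot.mk_C, Algebra.smul_def,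
          AdjoinRoot.algebraMap_eq, map_mul]
        ring
  · -- the second component is a uniformizer up to units and squares
    have hu0v : L.O.valuation (D / L.pi) = 1 := by
      rw [map_div₀, hD, div_self hpiv]
    have hu0m : D / L.pi ∈ L.O := (L.O.valuation_le_one_iff _).mp hu0v.le
    have hu0 : IsUnit (⟨D / L.pi, hu0m⟩ : L.O) :=
      (ValuationSubring.valuation_eq_one_iff L.O _).mpr hu0v
    have hδ : IsUnit (algebraMap L.O (AdjoinRoot h) ξ - AdjoinRoot.root h) := by
      rw [isUnit_iff_norm hh, norm_sub_root hh]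
      exact N.eval_unit L H
    obtain ⟨ε, hε⟩ : ∃ ε : AdjoinRoot h, e₂ = (algebraMap L.O (AdjoinRoot h) ξ -
        AdjoinRoot.root h) * algebraMap L.O (AdjoinRoot h) ⟨D / L.pi, hu0m⟩ * ε := by
      have h3 := hδ.mul (hu0.map (algebraMap L.O (AdjoinRoot h)))
      obtain ⟨v, hv⟩ := h3
      exact ⟨v⁻¹ * e₂, by rw [← hv, Units.mul_inv_cancel_left]⟩
    have hεu : IsUnit ε := by
      rw [hε] at he₂
      exact isUnit_of_mul_isUnit_right he₂
    have hbcC : ∀ s : L.O, bc (algebraMap L.O F) h (algebraMap L.O (AdjoinRoot h) s) =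
        algebraMap F _ (s : F) := by
      intro s
      have h3 := bc_mk (f := h) (algebraMap L.O F) (C s)
      rw [map_C] at h3
      exact h3
    have hr : N.r2 hfac c = D • ((algebraMap F _ (ξ : F) - AdjoinRoot.root _) *
        bc (algebraMap L.O F) h ε * y ^ 2) := by
      rw [hcase, hε, map_mul, map_mul, map_sub, hbcC, hbcC, bc_root]
      have h3 : D = L.pi * (D / L.pi) := by
        rw [mul_div_cancel₀ _ L.pi_ne]
      conv_rhs => rw [h3]
      rw [Algebra.smul_def, Algebra.smul_def, map_mul]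
      ring
    have hev : ev (ξ : F) H.root c = Algebra.norm F (bc (algebraMap L.O F) h e₂) *
        (n / (L.pi ^ g * Algebra.norm F (bc (algebraMap L.O F) h e₂) * Algebra.norm F y)) ^ 2 := by
      rw [hcase, nm_smul hhF, hdF, map_mul, map_pow] at hnN
      have hp := L.pi_ne
      field_simp
      rw [← hnN]
      ring
    have hb0 : n / (L.pi ^ g * Algebra.norm F (bc (algebraMap L.O F) h e₂) *
        Algebra.norm F y) ≠ 0 :=
      div_ne_zero hn0 (mul_ne_zero (mul_ne_zero (pow_ne_zero _ L.pi_ne) hNe0) hNy)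
    have hsqε : IsSquare (bc (algebraMap L.O F) h ε) := by
      have h2 : (2 : F) ≠ 0 := hval0 L.two
      have h3 := split_of_image h2 hf'm hdf' hi
      rw [← split_dn hf hf'm hD0 hf', hcc] at h3
      exact N.claim L hC hg hf H hfac hD h3 hNe hb0 hev hεu hy hr
    intro hx
    obtain ⟨e₁, e₁', y₁, ⟨P, hP, hPe⟩, ⟨P', hP', hPe'⟩, h11, hy₁, hee⟩ := he.unit
    obtain ⟨P₀, rfl⟩ := (coef_iff L P).mp hP
    obtain ⟨P₀', rfl⟩ := (coef_iff L P').mp hP'
    have hr1 : N.r2 hfac e₁ = bc (algebraMap L.O F) h (AdjoinRoot.mk h P₀) := by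
      rw [hPe, N.r2_mk, bc_mk]
    have hr1' : N.r2 hfac e₁' = bc (algebraMap L.O F) h (AdjoinRoot.mk h P₀') := by
      rw [hPe', N.r2_mk, bc_mk]
    have hε₁ : IsUnit (AdjoinRoot.mk h P₀) := by
      refine IsUnit.of_mul_eq_one (AdjoinRoot.mk h P₀') ?_
      apply bc_injective hh (algebraMap L.O F) Subtype.val_injective
      rw [map_mul, ← hr1, ← hr1', ← map_mul, h11, map_one, map_one]
    have hevO : ∀ Q : L.O[X], L.O.valuation ((Q.map (algebraMap L.O F)).eval (ξ : F)) ≤ 1 := by
      intro Q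
      have h3 : (Q.map (algebraMap L.O F)).eval (ξ : F) = algebraMap L.O F (Q.eval ξ) := by
        rw [eval_map]
        exact eval₂_at_apply (algebraMap L.O F) ξ
      rw [h3]
      exact (L.O.valuation_le_one_iff _).mpr (Q.eval ξ).2
    have hev1 : L.O.valuation (ev (ξ : F) H.root e₁) = 1 := by
      have h3 : L.O.valuation (ev (ξ : F) H.root e₁) *
          L.O.valuation (ev (ξ : F) H.root e₁') = 1 := by
        rw [← map_mul, ← map_mul, h11, map_one, map_one]
      have h4 : L.O.valuation (ev (ξ : F) H.root e₁) ≤ 1 := by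
        rw [hPe, N.ev_mk]
        exact hevO P₀
      have h5 : L.O.valuation (ev (ξ : F) H.root e₁') ≤ 1 := by
        rw [hPe', N.ev_mk]
        exact hevO P₀'
      refine le_antisymm h4 ?_
      calc (1 : L.O.ValueGroup) = L.O.valuation (ev (ξ : F) H.root e₁) *
          L.O.valuation (ev (ξ : F) H.root e₁') := h3.symm
        _ ≤ L.O.valuation (ev (ξ : F) H.root e₁) * 1 := mul_le_mul_right h5 _
        _ = _ := mul_one _
    have hevy : ev (ξ : F) H.root y₁ ≠ 0 := (hy₁.map (ev (ξ : F) H.root)).ne_zero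
    have hsq := N.claim L hC hg hf H hfac hD hx
      (a := Algebra.norm F (bc (algebraMap L.O F) h e₂) * ev (ξ : F) H.root e₁)
      (b := n / (L.pi ^ g * Algebra.norm F (bc (algebraMap L.O F) h e₂) * Algebra.norm F y) *
        ev (ξ : F) H.root y₁) (by rw [map_mul, hNe, hev1, one_mul]) (mul_ne_zero hb0 hevy)
      (by rw [map_mul, hev, hee, map_mul, map_pow]; ring) (hεu.mul hε₁)
      (hy.mul (hy₁.map (N.r2 hfac)))
      (by
        rw [map_mul, hr, hee, map_mul, map_pow, hr1, map_mul, Algebra.smul_def, Algebra.smul_def]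
        ring)
    -- the second component of `e` is a square
    have hsq1 : IsSquare (bc (algebraMap L.O F) h (AdjoinRoot.mk h P₀)) := by
      obtain ⟨s, hs1⟩ := hsqε
      obtain ⟨t, ht⟩ := hsq
      have hsu : IsUnit s := by
        have h3 := hεu.map (bc (algebraMap L.O F) h)
        rw [hs1] at h3
        exact isUnit_of_mul_isUnit_left h3
      obtain ⟨v, rfl⟩ := hsu
      refine ⟨(v⁻¹ : Units _) * t, ?_⟩
      rw [map_mul, hs1] at ht
      calc bc (algebraMap L.O F) h (AdjoinRoot.mk h P₀) =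
          ((v⁻¹ : Units _) * v) * ((v⁻¹ : Units _) * v) *
            bc (algebraMap L.O F) h (AdjoinRoot.mk h P₀) := by
            rw [Units.inv_mul, one_mul, one_mul]
        _ = (v⁻¹ : Units _) * (v⁻¹ : Units _) *
          (v * v * bc (algebraMap L.O F) h (AdjoinRoot.mk h P₀)) := by ring
        _ = _ := by rw [ht]; ring
    obtain ⟨t, ht⟩ := hsq1
    obtain ⟨k, hk0, hk⟩ := he.norm
    rw [N.norm_dec hf hhF hfac H.root, hee, map_mul (N.r2 hfac), map_pow (N.r2 hfac), hr1, ht,
      ← hee] at hk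
    have h3 : t * t * N.r2 hfac y₁ ^ 2 = (t * N.r2 hfac y₁) ^ 2 := by ring
    rw [h3, map_pow] at hk
    have h4 : Algebra.norm F (t * N.r2 hfac y₁) ≠ 0 := by
      intro h0
      rw [h0, zero_pow two_ne_zero, mul_zero] at hk
      exact pow_ne_zero 2 hk0 hk.symm
    refine he.ns ⟨k / Algebra.norm F (t * N.r2 hfac y₁), ?_⟩
    field_simp
    exact hk

end Pool.Agent.HYP
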