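import Pool.Agent.Lib.HYP.Def2
import Pool.Agent.Lib.BSDP.D.Ord

/-!
Module N.Lin (section 11, linear algebra). A subspace of `F ^ N` has a basis of integral vectors
whose reductions are linearly independent. A symmetric form of rank `2 g` with a totally isotropic
subspace of dimension `g` has determinant `(-1) ^ g` times a square. Hence: if the form
`a z² - D q (m)`, `a` a unit, `D` a uniformizer, `q` integral of rank `2 g`, has a totally
isotropic subspace of dimension `g` then `(-1) ^ g det q` is a square modulo `π`.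
-/

set_option autoImplicit false

open Polynomial Matrix

namespace Pool.Agent.HYP.N

open Pool.Agent.BSDP

theorem exists_int_basis {F : Type} [Field F] (L : Loc F) {N : ℕ} : ∀ (g : ℕ)
    (X : Submodule F (Fin N → F)), Module.finrank F X = g →
    ∃ v : Fin g → Fin N → L.O, (∀ i, (fun j => (v i j : F)) ∈ X) ∧
      LinearIndependent (IsLocalRing.ResidueField L.O)
        (fun i j => IsLocalRing.residue L.O (v i j)) := by
  intro g
  induction g with
  | zero =>
    intro X _
    exact ⟨Fin.elim0, fun i => i.elim0, linearIndependent_empty_type⟩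
  | succ g ih =>
    intro X hX
    have hpos : 0 < Module.finrank F X := by omega
    obtain ⟨⟨x, hx⟩, hx0⟩ : ∃ x : X, x ≠ 0 := Module.finrank_pos_iff_exists_ne_zero.mp hpos
    have hx0' : x ≠ 0 := fun h => hx0 (Subtype.ext h)
    obtain ⟨j₁, hj₁⟩ := Function.ne_iff.mp hx0'
    have : Nonempty (Fin N) := ⟨j₁⟩
    obtain ⟨j₀, hj₀⟩ := Finite.exists_max (fun j => L.O.valuation (x j))
    have hxj : x j₀ ≠ 0 := by
      intro h0
      have h1 := hj₀ j₁
      rw [h0, map_zero] at h1
      exact hj₁ ((map_eq_zero _).mp (le_antisymm h1 bot_le))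
    have hint : ∀ j, (x j₀)⁻¹ * x j ∈ L.O := by
      intro j
      rw [← L.O.valuation_le_one_iff, map_mul, map_inv₀]
      have hv : L.O.valuation (x j₀) ≠ 0 := (Valuation.ne_zero_iff _).mpr hxj
      calc (L.O.valuation (x j₀))⁻¹ * L.O.valuation (x j)
          ≤ (L.O.valuation (x j₀))⁻¹ * L.O.valuation (x j₀) := mul_le_mul_right (hj₀ j) _
        _ = 1 := inv_mul_cancel₀ hv
    let y : Fin N → L.O := fun j => ⟨(x j₀)⁻¹ * x j, hint j⟩
    have hy : (fun j => (y j : F)) ∈ X := X.smul_mem (x j₀)⁻¹ hx
    have hy1 : y j₀ = 1 := Subtype.ext (inv_mul_cancel₀ hxj)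
    -- the hyperplane section
    let φ : X →ₗ[F] F := (LinearMap.proj j₀).comp X.subtype
    have hsur : Function.Surjective φ := by
      intro c
      refine ⟨c • ⟨_, hy⟩, ?_⟩
      change c * (y j₀ : F) = c
      rw [hy1]
      exact mul_one c
    have hker : Module.finrank F (LinearMap.ker φ) = g := by
      have h1 := LinearMap.finrank_range_add_finrank_ker φ
      rw [LinearMap.range_eq_top.mpr hsur, finrank_top, Module.finrank_self, hX] at h1
      omega
    obtain ⟨v, hv, hvl⟩ := ih ((LinearMap.ker φ).map X.subtype)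
      ((Submodule.finrank_map_subtype_eq X (LinearMap.ker φ)).trans hker)
    have hv0 : ∀ i, v i j₀ = 0 := by
      intro i
      obtain ⟨⟨w, hw⟩, hwk, hwe⟩ := hv i
      have h1 : w j₀ = 0 := hwk
      have h2 : w = fun j => (v i j : F) := hwe
      rw [h2] at h1
      exact Subtype.ext h1
    refine ⟨Fin.cons y v, ?_, ?_⟩
    · intro i
      refine Fin.cases ?_ ?_ i
      · exact hy
      · intro i
        obtain ⟨⟨w, hw⟩, hwk, hwe⟩ := hv i
        have h2 : w = fun j => (v i j : F) := hwe
        rw [Fin.cons_succ]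
        rw [← h2]
        exact hw
    · have he : (fun (i : Fin (g + 1)) j => IsLocalRing.residue L.O
          ((Fin.cons y v : Fin (g + 1) → Fin N → L.O) i j)) =
          Fin.cons (fun j => IsLocalRing.residue L.O (y j))
            (fun i j => IsLocalRing.residue L.O (v i j)) := by
        funext i
        refine Fin.cases ?_ ?_ i
        · rfl
        · intro i
          rfl
      rw [he, linearIndependent_finCons]
      refine ⟨hvl, fun hmem => ?_⟩
      have h3 : Submodule.span (IsLocalRing.ResidueField L.O)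
          (Set.range fun i j => IsLocalRing.residue L.O (v i j)) ≤
          LinearMap.ker (LinearMap.proj j₀ :
            (Fin N → IsLocalRing.ResidueField L.O) →ₗ[IsLocalRing.ResidueField L.O] _) := by
        rw [Submodule.span_le]
        rintro _ ⟨i, rfl⟩
        change IsLocalRing.residue L.O (v i j₀) = 0
        rw [hv0 i, map_zero]
      have h4 : IsLocalRing.residue L.O (y j₀) = 0 := h3 hmem
      rw [hy1, map_one] at h4
      exact one_ne_zero h4

private theorem det_swap {κ : Type} [Field κ] (g : ℕ) :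
    (fromBlocks (0 : Matrix (Fin g) (Fin g) κ) (1 : Matrix (Fin g) (Fin g) κ)
      (1 : Matrix (Fin g) (Fin g) κ) (0 : Matrix (Fin g) (Fin g) κ)).det = (-1) ^ g := by
  have h1 : (fromBlocks (1 : Matrix (Fin g) (Fin g) κ) (1 : Matrix (Fin g) (Fin g) κ)
      (0 : Matrix (Fin g) (Fin g) κ) (1 : Matrix (Fin g) (Fin g) κ)) *
      fromBlocks (0 : Matrix (Fin g) (Fin g) κ) (1 : Matrix (Fin g) (Fin g) κ)
        (1 : Matrix (Fin g) (Fin g) κ) (0 : Matrix (Fin g) (Fin g) κ) =
      fromBlocks (1 : Matrix (Fin g) (Fin g) κ) (1 : Matrix (Fin g) (Fin g) κ)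
        (1 : Matrix (Fin g) (Fin g) κ) (0 : Matrix (Fin g) (Fin g) κ) := by
    rw [fromBlocks_multiply]
    simp
  have h2 : (fromBlocks (1 : Matrix (Fin g) (Fin g) κ) (1 : Matrix (Fin g) (Fin g) κ)
      (0 : Matrix (Fin g) (Fin g) κ) (1 : Matrix (Fin g) (Fin g) κ)).det = 1 := by
    rw [det_fromBlocks_zero₂₁]
    simp
  have h3 : (fromBlocks (1 : Matrix (Fin g) (Fin g) κ) (1 : Matrix (Fin g) (Fin g) κ)
      (1 : Matrix (Fin g) (Fin g) κ) (0 : Matrix (Fin g) (Fin g) κ)).det = (-1) ^ g := by
    rw [det_fromBlocks_one₁₁]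
    simp [det_neg]
  rw [← h1, det_mul, h2, one_mul] at h3
  exact h3

private theorem det_blocks {κ : Type} [Field κ] (g : ℕ) (B C' D' : Matrix (Fin g) (Fin g) κ) :
    (-1) ^ g * (fromBlocks 0 B C' D').det = B.det * C'.det := by
  have h1 : (fromBlocks 0 B C' D') *
      fromBlocks (0 : Matrix (Fin g) (Fin g) κ) (1 : Matrix (Fin g) (Fin g) κ)
        (1 : Matrix (Fin g) (Fin g) κ) (0 : Matrix (Fin g) (Fin g) κ) =
      fromBlocks B 0 D' C' := by
    rw [fromBlocks_multiply]
    simp
  have h2 : (fromBlocks B 0 D' C').det = B.det * C'.det := det_fromBlocks_zero₁₂ _ _ _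
  rw [← h1, det_mul, det_swap] at h2
  rw [mul_comm]
  exact h2

theorem isSquare_of_isotropic {κ : Type} [Field κ] {g : ℕ}
    (G : Matrix (Fin (2 * g)) (Fin (2 * g)) κ) (hG : G.transpose = G)
    (v : Fin g → Fin (2 * g) → κ) (hv : LinearIndependent κ v)
    (hi : ∀ i j, dotProduct (v i) (G.mulVec (v j)) = 0) : IsSquare ((-1) ^ g * G.det) := by
  obtain ⟨W, hW⟩ := Submodule.exists_isCompl (Submodule.span κ (Set.range v))
  have hr : Module.finrank κ (Submodule.span κ (Set.range v)) = g := by
    rw [finrank_span_eq_card hv, Fintype.card_fin]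
  have hrW : Module.finrank κ W = g := by
    have h1 := Submodule.finrank_add_eq_of_isCompl hW
    rw [hr, Module.finrank_fintype_fun_eq_card, Fintype.card_fin] at h1
    omega
  let b := Module.finBasisOfFinrankEq κ W hrW
  have hlin : LinearIndependent κ (Sum.elim v (fun i => (b i : Fin (2 * g) → κ))) := by
    refine LinearIndependent.sum_type hv ?_ ?_
    · exact b.linearIndependent.map' W.subtype (Submodule.ker_subtype W)
    · have h2 : Submodule.span κ (Set.range fun i => (b i : Fin (2 * g) → κ)) ≤ W := by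
        rw [Submodule.span_le]
        rintro _ ⟨i, rfl⟩
        exact (b i).2
      exact hW.disjoint.mono_right h2
  let e : Fin g ⊕ Fin g ≃ Fin (2 * g) := finSumFinEquiv.trans (finCongr (two_mul g).symm)
  let P : Matrix (Fin g ⊕ Fin g) (Fin (2 * g)) κ := Matrix.of (Sum.elim v fun i => (b i).1)
  let P' : Matrix (Fin g ⊕ Fin g) (Fin g ⊕ Fin g) κ := P.submatrix id e
  have hP' : P'.det ≠ 0 := by
    have h1 : LinearIndependent κ P'.row := by
      have h2 := hlin.map' (LinearEquiv.funCongrLeft κ κ e).toLinearMap (LinearEquiv.ker _)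
      exact h2
    rw [Matrix.linearIndependent_rows_iff_isUnit, Matrix.isUnit_iff_isUnit_det] at h1
    exact h1.ne_zero
  let Q : Matrix (Fin g ⊕ Fin g) (Fin g ⊕ Fin g) κ := P * G * P.transpose
  have hQ : Q = P' * G.submatrix e e * P'.transpose := by
    have h1 : P' * G.submatrix e e = (P * G).submatrix id e := by
      rw [← Matrix.submatrix_mul_equiv P G id e e]
    rw [h1]
    have h2 : P'.transpose = P.transpose.submatrix e id := rfl
    rw [h2, Matrix.submatrix_mul_equiv (P * G) P.transpose id e id, Matrix.submatrix_id_id]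
  have hdet : Q.det = P'.det ^ 2 * G.det := by
    rw [hQ, det_mul, det_mul, det_transpose, det_submatrix_equiv_self]
    ring
  have hent : ∀ i j, Q i j = dotProduct (P i) (G.mulVec (P j)) := by
    intro i j
    change (P * G * P.transpose) i j = _
    rw [Matrix.mul_assoc, Matrix.mul_apply', dotProduct_comm, dotProduct_comm]
    congr 1
  have hQT : Q.transpose = Q := by
    change (P * G * P.transpose).transpose = P * G * P.transpose
    rw [transpose_mul, transpose_mul, hG, transpose_transpose, Matrix.mul_assoc]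
  have hQb : Q = fromBlocks 0 Q.toBlocks₁₂ Q.toBlocks₂₁ Q.toBlocks₂₂ := by
    have h1 := (fromBlocks_toBlocks Q).symm
    have h2 : Q.toBlocks₁₁ = 0 := by
      ext i j
      change Q (Sum.inl i) (Sum.inl j) = 0
      rw [hent]
      exact hi i j
    rw [h2] at h1
    exact h1
  have h21 : Q.toBlocks₂₁ = Q.toBlocks₁₂.transpose := by
    ext i j
    change Q (Sum.inr i) (Sum.inl j) = Q (Sum.inl j) (Sum.inr i)
    conv_lhs => rw [← hQT]
    rfl
  have h3 := det_blocks g Q.toBlocks₁₂ Q.toBlocks₂₁ Q.toBlocks₂₂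
  rw [← hQb, h21, det_transpose, hdet] at h3
  refine ⟨Q.toBlocks₁₂.det / P'.det, ?_⟩
  field_simp
  linear_combination h3

theorem isSquare_res {F : Type} [Field F] (L : Loc F) {g : ℕ}
    (G : Matrix (Fin (2 * g)) (Fin (2 * g)) L.O) (hG : G.transpose = G) {a D : F}
    (ha : L.O.valuation a = 1) (hD : L.O.valuation D = L.O.valuation L.pi)
    (X : Submodule F (Fin (2 * g + 1) → F)) (hX : Module.finrank F X = g)
    (hi : ∀ x ∈ X, ∀ y ∈ X, a * x 0 * y 0 = D * dotProduct (Fin.tail x)
      ((G.map (algebraMap L.O F)).mulVec (Fin.tail y))) :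
    IsSquare ((-1) ^ g * (G.map (IsLocalRing.residue L.O)).det) := by
  obtain ⟨v, hv, hvl⟩ := exists_int_basis L g X hX
  have hD0 : D ≠ 0 := by
    intro h0
    rw [h0, map_zero] at hD
    exact L.pi_ne ((map_eq_zero _).mp hD.symm)
  -- the integral form
  let q : Fin g → Fin g → L.O := fun i j =>
    dotProduct (Fin.tail (v i)) (G.mulVec (Fin.tail (v j)))
  have hq : ∀ i j, a * (v i 0 : F) * (v j 0 : F) = D * (q i j : F) := by
    intro i j
    have h1 := hi _ (hv i) _ (hv j)
    have h2 : dotProduct (Fin.tail fun k => (v i k : F))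
        ((G.map (algebraMap L.O F)).mulVec (Fin.tail fun k => (v j k : F))) = (q i j : F) := by
      change _ = algebraMap L.O F (q i j)
      change _ = algebraMap L.O F (dotProduct (Fin.tail (v i)) (G.mulVec (Fin.tail (v j))))
      rw [RingHom.map_dotProduct]
      congr 1
      funext k
      rw [Function.comp_apply, RingHom.map_mulVec]
      rfl
    rw [h2] at h1
    exact h1
  have hpi : L.O.valuation L.pi < 1 := L.pi_lt
  have hres : ∀ x : L.O, IsLocalRing.residue L.O x = 0 ↔ L.O.valuation (x : F) < 1 := by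
    intro x
    rw [IsLocalRing.residue_eq_zero_iff, ← ValuationSubring.valuation_lt_one_iff]
  have hv0 : ∀ i, L.O.valuation (v i 0 : F) < 1 := by
    intro i
    by_contra hlt
    have h1 : L.O.valuation (v i 0 : F) = 1 :=
      le_antisymm ((L.O.valuation_le_one_iff _).2 (v i 0).2) (not_lt.mp hlt)
    have h2 := congrArg L.O.valuation (hq i i)
    rw [map_mul, map_mul, map_mul, ha, h1, hD, one_mul, one_mul] at h2
    have h3 : L.O.valuation L.pi * L.O.valuation (q i i : F) ≤ L.O.valuation L.pi * 1 :=
      mul_le_mul_right ((L.O.valuation_le_one_iff _).2 (q i i).2) _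
    rw [← h2, mul_one] at h3
    exact absurd (lt_of_le_of_lt h3 hpi) (lt_irrefl _)
  have hq0 : ∀ i j, IsLocalRing.residue L.O (q i j) = 0 := by
    intro i j
    rw [hres]
    obtain ⟨w, hw, hwi⟩ := (L.pi_gen _).1 (hv0 i)
    obtain ⟨w', hw', hwj⟩ := (L.pi_gen _).1 (hv0 j)
    have h2 := congrArg L.O.valuation (hq i j)
    rw [hwi, hwj] at h2
    simp only [map_mul] at h2
    rw [ha, hD, one_mul] at h2
    have hpv : L.O.valuation L.pi ≠ 0 := (Valuation.ne_zero_iff _).mpr L.pi_ne
    have h3 : L.O.valuation (q i j : F) =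
        L.O.valuation L.pi * (L.O.valuation w * L.O.valuation w') := by
      refine mul_left_cancel₀ hpv ?_
      rw [← h2]
      ac_rfl
    rw [h3]
    have h4 : L.O.valuation w * L.O.valuation w' ≤ 1 :=
      mul_le_one' ((L.O.valuation_le_one_iff _).2 hw) ((L.O.valuation_le_one_iff _).2 hw')
    calc L.O.valuation L.pi * (L.O.valuation w * L.O.valuation w')
        ≤ L.O.valuation L.pi * 1 := mul_le_mul_right h4 _
      _ < 1 := by rw [mul_one]; exact hpi
  -- the reductions of the tails
  let w : Fin g → Fin (2 * g) → IsLocalRing.ResidueField L.O := fun i k =>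
    IsLocalRing.residue L.O (v i k.succ)
  have hw : LinearIndependent (IsLocalRing.ResidueField L.O) w := by
    rw [Fintype.linearIndependent_iff] at hvl ⊢
    intro c hc i
    refine hvl c ?_ i
    funext k
    refine Fin.cases ?_ (fun k => ?_) k
    · rw [Finset.sum_apply]
      refine Finset.sum_eq_zero fun i _ => ?_
      rw [Pi.smul_apply, (hres _).2 (hv0 i), smul_zero]
    · have h1 := congrFun hc k
      rw [Finset.sum_apply] at h1 ⊢
      exact h1
  refine isSquare_of_isotropic (G.map (IsLocalRing.residue L.O)) ?_ w hw ?_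
  · rw [← Matrix.transpose_map, hG]
  · intro i j
    rw [← hq0 i j]
    change _ = IsLocalRing.residue L.O (dotProduct (Fin.tail (v i)) (G.mulVec (Fin.tail (v j))))
    rw [RingHom.map_dotProduct]
    congr 1
    funext k
    rw [Function.comp_apply, RingHom.map_mulVec]
    rfl

end Pool.Agent.HYP.N
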